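import Mathlib
import Pool.Agent.Y579.HR.Defs

/-!
The eight variants `IRT_XYZ` of Halin's infinite ray theorem, and the scheme `IΣ¹₁`, for structures
for second-order arithmetic (Henkin semantics).
-/

namespace Pool.Agent.Y548.HV

open Pool.Agent.Helper617.RM Pool.Agent.Y579.HR

universe u

variable (N : L2Structure.{u})

/-- The parameter `X` of `IRT_XYZ`: undirected or directed graphs. -/
inductive GraphKind
  | U
  | D

/-- The parameter `Y` of `IRT_XYZ`: vertex-disjoint or edge-disjoint. -/
inductive DisjKind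
  | V
  | E

/-- The parameter `Z` of `IRT_XYZ`: single rays or double rays. -/
inductive RayKind
  | S
  | D

/-- `(V, E)` is an `X`-graph of the structure. The edge set `E` is a set of codes of ordered pairs
of distinct elements of `V`; in an undirected graph the edge between `u` and `v` is represented by
both pairs. -/
def IsGraph : GraphKind → Set N.M → Set N.M → Prop
  | .U, V, E => IsUGraph N V E
  | .D, V, E => IsDGraph N V E

/-- The sequence `v_0 v_1 v_2 …`, `v_n = f n`, is a single ray of the graph `(V, E)`: its members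
are distinct and it runs through the edges from `v_n` to `v_(n+1)`. -/
structure IsSingleRay (V E : Set N.M) (f : N.M → N.M) : Prop where
  mem : ∀ n, f n ∈ V
  inj : ∀ n m, f n = f m → n = m
  adj : ∀ n, N.pair (f n) (f (N.add n N.one)) ∈ E

/-- The sequence `… v_(-1) v_0 v_1 …`, `v_n = f n` and `v_(-n) = g n`, is a double ray of the graph
`(V, E)`: its members are distinct and it runs through the edges from `v_n` to `v_(n+1)` and from
`v_(-(n+1))` to `v_(-n)`. -/
structure IsDoubleRay (V E : Set N.M) (f g : N.M → N.M) : Prop where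
  mem : ∀ n, f n ∈ V ∧ g n ∈ V
  zero : f N.zero = g N.zero
  inj_f : ∀ n m, f n = f m → n = m
  inj_g : ∀ n m, g n = g m → n = m
  inj_fg : ∀ n m, f n = g m → n = N.zero ∧ m = N.zero
  adj_f : ∀ n, N.pair (f n) (f (N.add n N.one)) ∈ E
  adj_g : ∀ n, N.pair (g (N.add n N.one)) (g n) ∈ E

/-- `f` (together with `g`, if `Z = D`) is a `Z`-ray of the graph `(V, E)`. A single ray is given
by `f` only. -/
def IsRay : RayKind → Set N.M → Set N.M → (N.M → N.M) → (N.M → N.M) → Prop
  | .S, V, E, f, _ => IsSingleRay N V E f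
  | .D, V, E, f, g => IsDoubleRay N V E f g

/-- The vertex `v` lies on the `Z`-ray. -/
def OnRay : RayKind → (N.M → N.M) → (N.M → N.M) → N.M → Prop
  | .S, f, _, v => ∃ n, v = f n
  | .D, f, g, v => (∃ n, v = f n) ∨ ∃ n, v = g n

/-- The `Z`-ray runs through the edge from `u` to `v`. -/
def Runs : RayKind → (N.M → N.M) → (N.M → N.M) → N.M → N.M → Prop
  | .S, f, _, u, v => ∃ n, u = f n ∧ v = f (N.add n N.one)
  | .D, f, g, u, v => (∃ n, u = f n ∧ v = f (N.add n N.one)) ∨ ∃ n, u = g (N.add n N.one) ∧ v = g n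

/-- The two `Z`-rays are `Y`-disjoint: they share no vertex, or they share no edge. In an
undirected graph the edge between `u` and `v` is the edge between `v` and `u`. -/
def AreDisjoint : GraphKind → DisjKind → RayKind →
    (N.M → N.M) → (N.M → N.M) → (N.M → N.M) → (N.M → N.M) → Prop
  | _, .V, z, f, g, f', g' => ∀ v, ¬ (OnRay N z f g v ∧ OnRay N z f' g' v)
  | .D, .E, z, f, g, f', g' => ∀ u v, ¬ (Runs N z f g u v ∧ Runs N z f' g' u v)
  | .U, .E, z, f, g, f', g' => ∀ u v, ¬ (Runs N z f g u v ∧ (Runs N z f' g' u v ∨ Runs N z f' g' v u))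

/-- The structure contains a sequence `⟨R_i⟩`, with `i` ranging over the numbers that satisfy `idx`,
of pairwise `Y`-disjoint `Z`-rays of the graph `(V, E)`. The sequence is coded by two sets of the
structure: `F` consists of the codes of `(i, (n, v))` where `v` is the vertex `v_n` of `R_i`, and
`G` does the same for the vertices `v_(-n)` (it is not used for single rays). -/
def HasDisjointRays (x : GraphKind) (y : DisjKind) (z : RayKind) (V E : Set N.M)
    (idx : N.M → Prop) : Prop :=
  ∃ F ∈ N.Sets, ∃ G ∈ N.Sets, ∃ f g : N.M → N.M → N.M,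
    (∀ i, idx i → ∀ n v, N.pair i (N.pair n v) ∈ F ↔ v = f i n) ∧
    (∀ i, idx i → ∀ n v, N.pair i (N.pair n v) ∈ G ↔ v = g i n) ∧
    (∀ i, idx i → IsRay N z V E (f i) (g i)) ∧
    ∀ i j, idx i → idx j → i ≠ j → AreDisjoint N x y z (f i) (g i) (f j) (g j)

/-- The principle `IRT_XYZ`: every `X`-graph with arbitrarily many `Y`-disjoint `Z`-rays has an
infinite sequence of pairwise `Y`-disjoint `Z`-rays. -/
def IRT (x : GraphKind) (y : DisjKind) (z : RayKind) : Prop :=
  ∀ V E : Set N.M, IsGraph N x V E →
    (∀ k, HasDisjointRays N x y z V E (fun i => N.lt i k)) →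
      HasDisjointRays N x y z V E (fun _ => True)

/-- The scheme `IΣ¹₁`: induction for all formulas `∃ X φ(n, X)` with `φ` arithmetical, with
parameters. -/
def Sigma11Induction : Prop :=
  ∀ (φ : SForm N) (v : ℕ → N.M),
    (∃ X ∈ N.Sets, φ.Holds (fun _ => X) (cons N.zero v)) →
    (∀ n, (∃ X ∈ N.Sets, φ.Holds (fun _ => X) (cons n v)) →
      ∃ X ∈ N.Sets, φ.Holds (fun _ => X) (cons (N.add n N.one) v)) →
    ∀ n, ∃ X ∈ N.Sets, φ.Holds (fun _ => X) (cons n v)

end Pool.Agent.Y548.HV
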