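import Mathlib
import Pool.Agent.Y579.HR.Match

/-!
Halin's theorem for single rays on the natural numbers, for vertex-disjoint and for edge-disjoint
rays: arbitrarily many disjoint rays give infinitely many.
-/

namespace Pool.Agent.Y548.HV

open Pool.Agent.Y579.HR

/-- What the rays are required not to share: `it u v` is the item of the edge from `u` to `v` (the
vertex `u`, or the edge itself). -/
structure Items (it : ℕ → ℕ → ℕ) : Prop where
  sw : ∀ u v u' v', it u v = it u' v' → u = u' ∨ u = v'
  inj : ∀ r : ℕ → ℕ, Function.Injective r → ∀ s t,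
    it (r s) (r (s+1)) = it (r t) (r (t+1)) → s = t

/-- the items of a ray -/
def itm (it : ℕ → ℕ → ℕ) (r : ℕ → ℕ) (s : ℕ) : ℕ := it (r s) (r (s+1))

/-- a family of disjoint rays -/
structure Good (adj : ℕ → ℕ → Prop) (it : ℕ → ℕ → ℕ) {ι : Type*} (r : ι → ℕ → ℕ) : Prop where
  inj : ∀ i, Function.Injective (r i)
  adj : ∀ i n, adj (r i n) (r i (n+1))
  dis : ∀ i j, i ≠ j → ∀ s t, itm it (r i) s ≠ itm it (r j) t

variable {adj : ℕ → ℕ → Prop} {it : ℕ → ℕ → ℕ}

theorem Good.dis' {ι : Type*} {r : ι → ℕ → ℕ} (hI : Items it) (h : Good adj it r) (i j : ι)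
    (s t : ℕ) (he : itm it (r i) s = itm it (r j) t) : i = j ∧ s = t := by
  by_cases hij : i = j
  · subst hij
    exact ⟨rfl, hI.inj _ (h.inj i) _ _ he⟩
  · exact absurd he (h.dis i j hij s t)

theorem newRay_mem {n : ℕ} (R : Fin n → ℕ → ℕ) (Q : ℕ → ℕ → ℕ) (c : Fin n → Option (ℕ × ℕ × ℕ))
    {i : Fin n} {s j t : ℕ} (hc : c i = some (s, j, t)) (he : R i s = Q j t) {m : ℕ} (hm : t ≤ m) :
    ∃ w, newRay R Q c i w = Q j m := by
  rcases Nat.eq_or_lt_of_le hm with rfl | hlt
  · refine ⟨s, ?_⟩
    unfold newRay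
    rw [hc]
    simp only [le_refl, if_true]
    exact he
  · refine ⟨s + (m - t), ?_⟩
    unfold newRay
    rw [hc]
    simp only
    rw [if_neg (by omega)]
    congr 1
    omega

/-- one step of the construction -/
theorem step (hI : Items it) {n : ℕ} {r : Fin n → ℕ → ℕ} (hr : Good adj it r)
    (H : ∀ K, ∃ q : Fin K → ℕ → ℕ, Good adj it q) (L : ℕ) :
    ∃ r' : Fin (n+1) → ℕ → ℕ, Good adj it r' ∧
      ∀ (i : Fin n) (u : ℕ), u < L → r' i.castSucc u = r i u := by
  classical
  obtain ⟨q0, hq0⟩ := H (n * 0 + n * n + 1)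
  -- the vertices that have to be avoided
  let F : Finset ℕ := ((Finset.univ : Finset (Fin n)) ×ˢ Finset.range L).image (fun x => r x.1 x.2)
  have hT : ∀ j, ∃ T, ∀ m, T ≤ m → q0 j m ∉ F := by
    intro j
    have hfin : {m | q0 j m ∈ F}.Finite :=
      Set.Finite.preimage ((hq0.inj j).injOn) (F.finite_toSet)
    obtain ⟨T, hT⟩ := hfin.bddAbove
    refine ⟨T + 1, fun m hm hmem => ?_⟩
    have := hT hmem
    omega
  choose T hT using hT
  let q : Fin (n * 0 + n * n + 1) → ℕ → ℕ := fun j m => q0 j (T j + m)
  have hq : Good adj it q := by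
    refine ⟨fun i a b hab => ?_, fun i m => hq0.adj i _, fun i j hij s t => ?_⟩
    · have := hq0.inj i hab
      omega
    · exact hq0.dis i j hij _ _
  have hqF : ∀ j m, q j m ∉ F := fun j m => hT j _ (by omega)
  let Q : ℕ → ℕ → ℕ := fun j t => if h : j < n * 0 + n * n + 1 then itm it (q ⟨j, h⟩) t else 0
  obtain ⟨c, j0, hj0, hc1, hc2, hc3⟩ := halin_step (n := n) (N := 0) (K := n * 0 + n * n + 1)
    (fun i => itm it (r i)) (fun i j s t h => hr.dis' hI i j s t h) Q le_rfl (by
      intro i hi j hj s t h
      simp only [Q, dif_pos hi, dif_pos hj] at h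
      obtain ⟨h1, h2⟩ := hq.dis' hI _ _ _ _ h
      exact ⟨congrArg Fin.val h1, h2⟩)
  -- the new rays
  have key : ∀ i : Fin n, ∃ ρ : ℕ → ℕ, Function.Injective ρ ∧ (∀ m, adj (ρ m) (ρ (m+1))) ∧
      (∀ u < L, ρ u = r i u) ∧
      ∀ u, ∃ w, newRay (fun i => itm it (r i)) Q c i w = itm it ρ u := by
    intro i
    rcases hci : c i with _ | ⟨s, j, t⟩
    · refine ⟨r i, hr.inj i, hr.adj i, fun _ _ => rfl, fun u => ⟨u, ?_⟩⟩
      unfold newRay
      rw [hci]
    · obtain ⟨-, hjK, hst⟩ := hc1 i s j t hci
      have hst0 := hst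
      simp only [Q, dif_pos hjK] at hst
      -- the first vertex on the tail
      have hex : ∃ s', ∃ t', t ≤ t' ∧ r i s' = q ⟨j, hjK⟩ t' := by
        rcases hI.sw _ _ _ _ hst with h | h
        · exact ⟨s, t, le_rfl, h⟩
        · exact ⟨s, t + 1, by omega, h⟩
      have hs1s : Nat.find hex ≤ s := by
        apply Nat.find_min'
        rcases hI.sw _ _ _ _ hst with h | h
        · exact ⟨t, le_rfl, h⟩
        · exact ⟨t + 1, by omega, h⟩
      obtain ⟨t1, ht1, hrq⟩ := Nat.find_spec hex
      have hmin : ∀ u < Nat.find hex, ∀ t', t ≤ t' → r i u ≠ q ⟨j, hjK⟩ t' := by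
        intro u hu t' ht' he
        exact Nat.find_min hex hu ⟨t', ht', he⟩
      generalize Nat.find hex = s1 at hs1s hrq hmin
      have hLs : L ≤ s1 := by
        by_contra hlt
        apply hqF ⟨j, hjK⟩ t1
        rw [← hrq]
        exact Finset.mem_image.2 ⟨(i, s1), Finset.mem_product.2
          ⟨Finset.mem_univ _, Finset.mem_range.2 (by omega)⟩, rfl⟩
      refine ⟨fun u => if u ≤ s1 then r i u else q ⟨j, hjK⟩ (t1 + (u - s1)), ?_, ?_, ?_, ?_⟩
      · intro a b hab
        simp only at hab
        by_cases ha : a ≤ s1 <;> by_cases hb : b ≤ s1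
        · rw [if_pos ha, if_pos hb] at hab
          exact hr.inj i hab
        · rw [if_pos ha, if_neg hb] at hab
          exfalso
          rcases Nat.eq_or_lt_of_le ha with rfl | hlt
          · rw [hrq] at hab
            have := hq.inj _ hab
            omega
          · exact hmin a hlt _ (by omega) hab
        · rw [if_neg ha, if_pos hb] at hab
          exfalso
          rcases Nat.eq_or_lt_of_le hb with rfl | hlt
          · rw [hrq] at hab
            have := hq.inj _ hab
            omega
          · exact hmin b hlt _ (by omega) hab.symm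
        · rw [if_neg ha, if_neg hb] at hab
          have := hq.inj _ hab
          omega
      · intro m
        simp only
        rcases lt_trichotomy m s1 with h | h | h
        · rw [if_pos h.le, if_pos (by omega)]
          exact hr.adj i m
        · rw [if_pos h.le, if_neg (by omega), h, hrq]
          rw [show t1 + (s1 + 1 - s1) = t1 + 1 by omega]
          exact hq.adj _ _
        · rw [if_neg (by omega), if_neg (by omega)]
          rw [show t1 + (m + 1 - s1) = t1 + (m - s1) + 1 by omega]
          exact hq.adj _ _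
      · intro u hu
        simp only
        rw [if_pos (by omega)]
      · intro u
        rcases Nat.lt_or_ge u s1 with h | h
        · refine ⟨u, ?_⟩
          unfold newRay
          rw [hci]
          simp only
          rw [if_pos (by omega)]
          simp only [itm]
          rw [if_pos h.le, if_pos (by omega)]
        · obtain ⟨w, hw⟩ := newRay_mem (fun i => itm it (r i)) Q c hci hst0
            (m := t1 + (u - s1)) (by omega)
          refine ⟨w, hw.trans ?_⟩
          simp only [Q, dif_pos hjK, itm]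
          have e1 : (if u ≤ s1 then r i u else q ⟨j, hjK⟩ (t1 + (u - s1))) =
              q ⟨j, hjK⟩ (t1 + (u - s1)) := by
            rcases Nat.eq_or_lt_of_le h with rfl | h'
            · rw [if_pos le_rfl, hrq, Nat.sub_self]
              rfl
            · rw [if_neg (by omega)]
          rw [e1, if_neg (by omega : ¬ u + 1 ≤ s1),
            show t1 + (u + 1 - s1) = t1 + (u - s1) + 1 by omega]
  choose ρ hρ1 hρ2 hρ3 hρ4 using key
  refine ⟨fun i => Fin.lastCases (motive := fun _ => ℕ → ℕ) (q ⟨j0, hj0⟩) ρ i, ⟨?_, ?_, ?_⟩, ?_⟩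
  · intro i
    refine Fin.lastCases ?_ (fun i => ?_) i
    · simp only [Fin.lastCases_last]
      exact hq.inj _
    · simp only [Fin.lastCases_castSucc]
      exact hρ1 i
  · intro i
    refine Fin.lastCases ?_ (fun i => ?_) i
    · simp only [Fin.lastCases_last]
      exact hq.adj _
    · simp only [Fin.lastCases_castSucc]
      exact hρ2 i
  · have hl : ∀ (i : Fin n) s t, itm it (ρ i) s ≠ itm it (q ⟨j0, hj0⟩) t := by
      intro i s t he
      obtain ⟨w, hw⟩ := hρ4 i s
      apply hc3 i w t
      rw [hw, he]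
      simp only [Q, dif_pos hj0]
    intro i j
    refine Fin.lastCases ?_ (fun i => ?_) i
    · refine Fin.lastCases ?_ (fun j => ?_) j
      · intro h
        exact absurd rfl h
      · intro _ s t
        simp only [Fin.lastCases_last, Fin.lastCases_castSucc]
        exact fun h => hl j t s h.symm
    · refine Fin.lastCases ?_ (fun j => ?_) j
      · intro _ s t
        simp only [Fin.lastCases_last, Fin.lastCases_castSucc]
        exact hl i s t
      · intro hij s t
        simp only [Fin.lastCases_castSucc]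
        intro he
        obtain ⟨w, hw⟩ := hρ4 i s
        obtain ⟨w', hw'⟩ := hρ4 j t
        have := (hc2 i j w w' (by rw [hw, hw', he])).1
        exact hij (by rw [this])
  · intro i u hu
    simp only [Fin.lastCases_castSucc]
    exact hρ3 i u hu

/-- the stages of the construction -/
noncomputable def stage (hI : Items it) (H : ∀ K, ∃ q : Fin K → ℕ → ℕ, Good adj it q) :
    (n : ℕ) → {r : Fin n → ℕ → ℕ // Good adj it r}
  | 0 => ⟨fun i => i.elim0, ⟨fun i => i.elim0, fun i => i.elim0, fun i => i.elim0⟩⟩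
  | n + 1 => ⟨(step hI (stage hI H n).2 H n).choose, (step hI (stage hI H n).2 H n).choose_spec.1⟩

theorem stage_succ (hI : Items it) (H : ∀ K, ∃ q : Fin K → ℕ → ℕ, Good adj it q) (n : ℕ)
    (i : Fin n) (u : ℕ) (hu : u < n) :
    (stage hI H (n+1)).1 i.castSucc u = (stage hI H n).1 i u :=
  (step hI (stage hI H n).2 H n).choose_spec.2 i u hu

/-- **Halin's theorem for single rays.** -/
theorem halin (hI : Items it) (H : ∀ K, ∃ q : Fin K → ℕ → ℕ, Good adj it q) :
    ∃ R : ℕ → ℕ → ℕ, Good adj it R := by
  have hst : ∀ m n i u (hi : i < n), u < n → (stage hI H (n+m)).1 ⟨i, by omega⟩ u =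
      (stage hI H n).1 ⟨i, hi⟩ u := by
    intro m
    induction m with
    | zero => intro n i u hi hu; rfl
    | succ m ih =>
      intro n i u hi hu
      rw [← ih n i u hi hu]
      exact stage_succ hI H (n+m) ⟨i, by omega⟩ u (by omega)
  let R : ℕ → ℕ → ℕ := fun i u => (stage hI H (i + u + 1)).1 ⟨i, by omega⟩ u
  have hR : ∀ m i u (hi : i < m), u < m → R i u = (stage hI H m).1 ⟨i, hi⟩ u := by
    intro m i u hi hu
    have h1 := hst (i + u + 1) m i u hi hu
    have h2 := hst m (i + u + 1) i u (by omega) (by omega)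
    rw [← h1]
    show (stage hI H (i + u + 1)).1 ⟨i, by omega⟩ u = _
    rw [← h2]
    have hcast : ∀ a b : ℕ, a = b → ∀ (ha : i < a) (hb : i < b),
        (stage hI H a).1 ⟨i, ha⟩ u = (stage hI H b).1 ⟨i, hb⟩ u := by
      rintro a _ rfl _ _
      rfl
    exact hcast _ _ (by omega) _ _
  refine ⟨R, ⟨?_, ?_, ?_⟩⟩
  · intro i a b hab
    have h1 := hR (i + a + b + 1) i a (by omega) (by omega)
    have h2 := hR (i + a + b + 1) i b (by omega) (by omega)
    rw [h1, h2] at hab
    exact (stage hI H _).2.inj _ hab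
  · intro i n
    rw [hR (i + n + 2) i n (by omega) (by omega), hR (i + n + 2) i (n+1) (by omega) (by omega)]
    exact (stage hI H _).2.adj _ _
  · intro i j hij s t
    unfold itm
    rw [hR (i + j + s + t + 2) i s (by omega) (by omega),
      hR (i + j + s + t + 2) i (s+1) (by omega) (by omega),
      hR (i + j + s + t + 2) j t (by omega) (by omega),
      hR (i + j + s + t + 2) j (t+1) (by omega) (by omega)]
    exact (stage hI H _).2.dis _ _ (fun h => hij (congrArg Fin.val h)) _ _

end Pool.Agent.Y548.HV
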