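import Mathlib
import Pool.Agent.Y548.HV.Defs
import Pool.Agent.Y548.HV.Halin

/-!
The four principles `IRT_XYS` for single rays hold in the full structure.
-/

namespace Pool.Agent.Y548.HV

open Pool.Agent.Helper617.RM Pool.Agent.Y579.HR

/-- The pairing function `(a + b)² + a` on the natural numbers. -/
def pr (a b : ℕ) : ℕ := (a + b) * (a + b) + a

theorem pr_inj {a b c d : ℕ} (h : pr a b = pr c d) : a = c ∧ b = d := by
  unfold pr at h
  have key : a + b = c + d := by
    rcases lt_trichotomy (a + b) (c + d) with hlt | heq | hgt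
    · exfalso
      have h1 : (a + b + 1) * (a + b + 1) ≤ (c + d) * (c + d) := Nat.mul_le_mul hlt hlt
      nlinarith
    · exact heq
    · exfalso
      have h1 : (c + d + 1) * (c + d + 1) ≤ (a + b) * (a + b) := Nat.mul_le_mul hgt hgt
      nlinarith
  rw [key] at h
  have h2 : a = c := by omega
  subst h2
  exact ⟨rfl, by omega⟩

theorem full_pair (a b : ℕ) : fullModel.pair a b = pr a b := rfl

/-- the code of a sequence of functions -/
def codeOf (f : ℕ → ℕ → ℕ) : Set ℕ := {x | ∃ i n, x = pr i (pr n (f i n))}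

theorem mem_codeOf (f : ℕ → ℕ → ℕ) (i n v : ℕ) : pr i (pr n v) ∈ codeOf f ↔ v = f i n := by
  constructor
  · rintro ⟨i', n', h⟩
    obtain ⟨rfl, h1⟩ := pr_inj h
    obtain ⟨rfl, h2⟩ := pr_inj h1
    exact h2
  · rintro rfl
    exact ⟨i, n, rfl⟩

theorem full_sigma11Induction : Sigma11Induction fullModel := by
  intro φ v h0 hs n
  exact Nat.rec h0 hs n

/-- in the full structure every sequence of functions has a code -/
theorem hasDisjointRays_full (x : GraphKind) (y : DisjKind) (z : RayKind) (V E : Set ℕ)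
    (idx : ℕ → Prop) : HasDisjointRays fullModel x y z V E idx ↔
      ∃ f g : ℕ → ℕ → ℕ, (∀ i, idx i → IsRay fullModel z V E (f i) (g i)) ∧
        ∀ i j, idx i → idx j → i ≠ j → AreDisjoint fullModel x y z (f i) (g i) (f j) (g j) := by
  constructor
  · rintro ⟨F, _, G, _, f, g, _, _, h1, h2⟩
    exact ⟨f, g, h1, h2⟩
  · rintro ⟨f, g, h1, h2⟩
    exact ⟨codeOf f, Set.mem_univ _, codeOf g, Set.mem_univ _, f, g,
      fun i _ n v => mem_codeOf f i n v, fun i _ n v => mem_codeOf g i n v, h1, h2⟩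

/-- the items for the four principles -/
def theIt : GraphKind → DisjKind → ℕ → ℕ → ℕ
  | _, .V, u, _ => u
  | .D, .E, u, v => pr u v
  | .U, .E, u, v => pr (min u v) (max u v)

theorem minmax {u v u' v' : ℕ} (h : pr (min u v) (max u v) = pr (min u' v') (max u' v')) :
    (u = u' ∧ v = v') ∨ (u = v' ∧ v = u') := by
  obtain ⟨h1, h2⟩ := pr_inj h
  omega

theorem items (x : GraphKind) (y : DisjKind) : Items (theIt x y) := by
  refine ⟨?_, ?_⟩
  · intro u v u' v' h
    cases x <;> cases y <;> simp only [theIt] at h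
    · exact Or.inl h
    · rcases minmax h with h1 | h1
      · exact Or.inl h1.1
      · exact Or.inr h1.1
    · exact Or.inl h
    · exact Or.inl (pr_inj h).1
  · intro r hr s t h
    cases x <;> cases y <;> simp only [theIt] at h
    · exact hr h
    · rcases minmax h with h1 | h1
      · exact hr h1.1
      · have h2 := hr h1.1
        have h3 := hr h1.2
        omega
    · exact hr h
    · exact hr (pr_inj h).1

/-- disjointness of single rays in terms of items -/
theorem disj_iff (x : GraphKind) (y : DisjKind) (f g f' g' : ℕ → ℕ) :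
    AreDisjoint fullModel x y .S f g f' g' ↔
      ∀ s t, itm (theIt x y) f s ≠ itm (theIt x y) f' t := by
  cases x <;> cases y
  · constructor
    · intro h s t he
      exact h (f s) ⟨⟨s, rfl⟩, ⟨t, he⟩⟩
    · rintro h v ⟨⟨s, hs⟩, ⟨t, ht⟩⟩
      exact h s t (hs.symm.trans ht)
  · constructor
    · intro h s t he
      apply h (f s) (f (s+1))
      refine ⟨⟨s, rfl, rfl⟩, ?_⟩
      rcases minmax he with h1 | h1
      · exact Or.inl ⟨t, h1.1, h1.2⟩
      · exact Or.inr ⟨t, h1.2, h1.1⟩
    · rintro h (u : ℕ) (v : ℕ) ⟨⟨(s : ℕ), hs, hs'⟩, h2⟩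
      have hs'' : v = f (s+1) := hs'
      rcases h2 with ⟨(t : ℕ), ht, ht'⟩ | ⟨(t : ℕ), ht, ht'⟩
      · have ht'' : v = f' (t+1) := ht'
        apply h s t
        simp only [itm, theIt]
        rw [← hs, ← ht, ← hs'', ← ht'']
      · have ht'' : u = f' (t+1) := ht'
        apply h s t
        simp only [itm, theIt]
        rw [← hs, ← ht, ← hs'', ← ht'', min_comm, max_comm]
  · constructor
    · intro h s t he
      exact h (f s) ⟨⟨s, rfl⟩, ⟨t, he⟩⟩
    · rintro h v ⟨⟨s, hs⟩, ⟨t, ht⟩⟩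
      exact h s t (hs.symm.trans ht)
  · constructor
    · intro h s t he
      obtain ⟨h1, h2⟩ := pr_inj he
      exact h (f s) (f (s+1)) ⟨⟨s, rfl, rfl⟩, ⟨t, h1, h2⟩⟩
    · rintro h (u : ℕ) (v : ℕ) ⟨⟨(s : ℕ), hs, hs'⟩, ⟨(t : ℕ), ht, ht'⟩⟩
      have hs'' : v = f (s+1) := hs'
      have ht'' : v = f' (t+1) := ht'
      apply h s t
      simp only [itm, theIt]
      rw [← hs, ← ht, ← hs'', ← ht'']

/-- **The principles for single rays hold in the full structure.** -/
theorem irt_single (x : GraphKind) (y : DisjKind) : IRT fullModel x y .S := by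
  intro V E _ H
  rw [hasDisjointRays_full]
  let adj : ℕ → ℕ → Prop := fun u v => u ∈ V ∧ v ∈ V ∧ pr u v ∈ E
  have H' : ∀ K, ∃ q : Fin K → ℕ → ℕ, Good adj (theIt x y) q := by
    intro K
    obtain ⟨f, g, h1, h2⟩ := (hasDisjointRays_full _ _ _ _ _ _).1 (H K)
    refine ⟨fun i => f i, ⟨?_, ?_, ?_⟩⟩
    · intro i a b hab
      exact (h1 i i.2).inj a b hab
    · intro i n
      exact ⟨(h1 i i.2).mem n, (h1 i i.2).mem (n+1), (h1 i i.2).adj n⟩
    · intro i j hij
      exact (disj_iff x y _ (g i) _ (g j)).1 (h2 i j i.2 j.2 (fun h => hij (Fin.ext h)))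
  obtain ⟨R, hR⟩ := halin (items x y) H'
  refine ⟨R, R, fun i _ => ?_, fun i j _ _ hij => ?_⟩
  · exact ⟨fun n => (hR.adj i n).1, fun n m h => hR.inj i h, fun n => (hR.adj i n).2.2⟩
  · exact (disj_iff x y _ _ _ _).2 (hR.dis i j hij)

end Pool.Agent.Y548.HV
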