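import Mathlib
import Pool.Agent.Y548.HV.Single
import Pool.Agent.H798R3.DirRay

/-!
The principle `IRT_DED` fails in the full structure.
-/

namespace Pool.Agent.Y548.HV

open Pool.Agent.Helper617.RM Pool.Agent.Y579.HR
open Pool.Agent.H798R3.DirRay

/-- there is no infinite family of arc-disjoint directed double rays -/
theorem no_inf : ¬ ∃ R : ℕ → ℤ → V,
    (∀ i, Function.Injective (R i)) ∧ (∀ i n, G.Adj (R i n) (R i (n + 1))) ∧
    (∀ i j, i ≠ j → ∀ m n : ℤ, ¬ (R i m = R j n ∧ R i (m + 1) = R j (n + 1))) := by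
  rintro ⟨R, hinj, hadj, hdis⟩
  choose f s hf using fun i => structure_thm (hinj i) (fun n => hadj i n)
  have hfinj : Function.Injective f := by
    intro i j hij
    by_contra hne
    have h1 := (hf i (max (s i) (s j)) (le_max_left _ _)).1
    have h2 := (hf j (max (s i) (s j)) (le_max_right _ _)).1
    obtain ⟨m, hm⟩ := h1
    obtain ⟨n, hn⟩ := h2
    rw [← hij] at hn
    refine hdis i j hne m n ⟨hm.trans hn.symm, ?_⟩
    have e1 : E (R i m) (R i (m+1)) := hadj i m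
    have e2 : E (R j n) (R j (n+1)) := hadj j n
    rw [hm] at e1
    rw [hn] at e2
    exact succ_w e1 e2
  have hcol : ∀ i, Nat.sqrt (f i) = Nat.sqrt (f 0) := by
    intro i
    by_contra hne
    have hi0 : i ≠ 0 := by rintro rfl; exact hne rfl
    obtain ⟨t, ht, hA, hB⟩ := freq (f i) (f 0) (max (s i) (s 0))
    have hc : Cf t := by unfold Cf; rw [hA, hB]; exact hne
    obtain ⟨m, hm1, hm2⟩ := (hf i t (le_trans (le_max_left _ _) ht)).2.2 hA
    obtain ⟨n, hn1, hn2⟩ := (hf 0 t (le_trans (le_max_right _ _) ht)).2.1 hc hB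
    exact hdis i 0 hi0 m n ⟨hm1.trans hn1.symm, hm2.trans hn2.symm⟩
  have hinf := Set.infinite_range_of_injective hfinj
  apply hinf
  apply (Set.finite_Iio ((Nat.sqrt (f 0) + 1) * (Nat.sqrt (f 0) + 1))).subset
  rintro _ ⟨i, rfl⟩
  have := Nat.lt_succ_sqrt (f i)
  rw [hcol i] at this
  exact this

theorem arb (k : ℕ) (i j : ℕ) (hi : i < k) (hj : j < k) (hij : i ≠ j) (m n : ℤ) :
    ¬ (Q (k * k + i) m = Q (k * k + j) n ∧ Q (k * k + i) (m + 1) = Q (k * k + j) (n + 1)) := by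
  rintro ⟨h1, h2⟩
  have hne : k * k + i ≠ k * k + j := by omega
  refine Arc_disj (a := k * k + i) (b := k * k + j) hne ?_ (Q_adj _ m) ?_
  · rw [Nat.sqrt_add_eq k (by omega : i ≤ k + k), Nat.sqrt_add_eq k (by omega : j ≤ k + k)]
  · rw [h1, h2]
    exact Q_adj _ n

/-- the numbers of the vertices -/
def enc : V → ℕ
  | .z t => pr 0 (pr t 0)
  | .p t => pr 1 (pr t 0)
  | .q t => pr 2 (pr t 0)
  | .r t => pr 3 (pr t 0)
  | .u t a => pr 4 (pr t a)
  | .x t a => pr 5 (pr t a)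
  | .w a t => pr 6 (pr a t)
  | .y a t => pr 7 (pr a t)
  | .y' a t => pr 8 (pr a t)

theorem enc_inj : Function.Injective enc := by
  intro v v' h
  cases v <;> cases v' <;> simp only [enc] at h <;> obtain ⟨h1, h2⟩ := pr_inj h <;>
    first
    | (exfalso; omega)
    | (obtain ⟨h3, h4⟩ := pr_inj h2; subst h3; subst h4; rfl)
    | (obtain ⟨h3, h4⟩ := pr_inj h2; subst h3; rfl)

theorem arc_ne {v v' : V} (h : E v v') : v ≠ v' := by
  rintro rfl
  obtain ⟨a, h⟩ := h
  generalize hv' : v = v' at h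
  cases h <;> simp_all

/-- the vertex set of the graph -/
def GV : Set ℕ := Set.range enc

/-- the edge set of the graph -/
def GE : Set ℕ := {x | ∃ v v', E v v' ∧ x = pr (enc v) (enc v')}

theorem isDGraph : IsDGraph fullModel GV GE := by
  refine ⟨Set.mem_univ _, Set.mem_univ _, ?_⟩
  rintro e ⟨v, v', h, rfl⟩
  exact ⟨enc v, enc v', ⟨v, rfl⟩, ⟨v', rfl⟩, fun he => arc_ne h (enc_inj he), rfl⟩

theorem mem_GE {v v' : V} (h : pr (enc v) (enc v') ∈ GE) : E v v' := by
  obtain ⟨u, u', hu, he⟩ := h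
  obtain ⟨h1, h2⟩ := pr_inj he
  rw [enc_inj h1, enc_inj h2]
  exact hu

/-- the two-sided sequence given by two one-sided sequences -/
def glue {α : Type*} (F G : ℕ → α) : ℤ → α
  | Int.ofNat n => F n
  | Int.negSucc n => G (n + 1)

theorem glue_neg {α : Type*} {F G : ℕ → α} (h0 : F 0 = G 0) (n : ℕ) : glue F G (-(n : ℤ)) = G n := by
  cases n with
  | zero => exact h0
  | succ n => rfl

theorem glue_cases {α : Type*} {F G : ℕ → α} (h0 : F 0 = G 0) (m : ℤ) :
    (∃ n : ℕ, glue F G m = F n ∧ glue F G (m + 1) = F (n + 1)) ∨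
      ∃ n : ℕ, glue F G m = G (n + 1) ∧ glue F G (m + 1) = G n := by
  match m with
  | Int.ofNat n => exact Or.inl ⟨n, rfl, rfl⟩
  | Int.negSucc n =>
    refine Or.inr ⟨n, rfl, ?_⟩
    rw [show Int.negSucc n + 1 = -(n : ℤ) by omega]
    exact glue_neg h0 n

theorem glue_inj {α : Type*} {F G : ℕ → α} (hF : ∀ n m, F n = F m → n = m)
    (hG : ∀ n m, G n = G m → n = m) (hFG : ∀ n m, F n = G m → n = 0 ∧ m = 0) :
    Function.Injective (glue F G) := by
  intro a b hab
  match a, b with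
  | Int.ofNat n, Int.ofNat m => exact congrArg _ (hF n m hab)
  | Int.ofNat n, Int.negSucc m => exact absurd (hFG n (m+1) hab).2 (by omega)
  | Int.negSucc n, Int.ofNat m => exact absurd (hFG m (n+1) hab.symm).2 (by omega)
  | Int.negSucc n, Int.negSucc m =>
    have := hG (n+1) (m+1) hab
    rw [show n = m by omega]

theorem runs_iff (f g : ℕ → ℕ) (u v : ℕ) : Runs fullModel .D f g u v ↔
    (∃ n : ℕ, u = f n ∧ v = f (n+1)) ∨ ∃ n : ℕ, u = g (n+1) ∧ v = g n := Iff.rfl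

theorem mkDouble {V E : Set ℕ} {f g : ℕ → ℕ} (h1 : ∀ n : ℕ, f n ∈ V ∧ g n ∈ V) (h2 : f 0 = g 0)
    (h3 : ∀ n m : ℕ, f n = f m → n = m) (h4 : ∀ n m : ℕ, g n = g m → n = m)
    (h5 : ∀ n m : ℕ, f n = g m → n = 0 ∧ m = 0) (h6 : ∀ n : ℕ, pr (f n) (f (n+1)) ∈ E)
    (h7 : ∀ n : ℕ, pr (g (n+1)) (g n) ∈ E) : IsDoubleRay fullModel V E f g :=
  ⟨h1, h2, h3, h4, h5, h6, h7⟩

/-- **`IRT_DED` fails in the full structure.** -/
theorem not_irt_DED : ¬ IRT fullModel .D .E .D := by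
  intro h
  obtain ⟨f, g, h1, h2⟩ := (hasDisjointRays_full _ _ _ _ _ _).1 (h GV GE isDGraph (by
    intro (k : ℕ)
    rw [hasDisjointRays_full]
    refine ⟨fun i n => enc (Q (k * k + i) (n : ℤ)), fun i n => enc (Q (k * k + i) (-(n : ℤ))),
      fun i _ => ?_, fun i j hi hj hij => ?_⟩
    · have hinj : ∀ a b : ℤ, enc (Q (k * k + i) a) = enc (Q (k * k + i) b) → a = b :=
        fun a b hab => Q_inj _ (enc_inj hab)
      refine mkDouble (fun n => ⟨⟨_, rfl⟩, ⟨_, rfl⟩⟩) rfl ?_ ?_ ?_ ?_ ?_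
      · intro n m hnm
        have := hinj _ _ hnm
        exact_mod_cast this
      · intro n m hnm
        have := hinj _ _ hnm
        omega
      · intro n m hnm
        have := hinj _ _ hnm
        omega
      · intro n
        exact ⟨_, _, ⟨_, Q_adj (k * k + i) (n : ℤ)⟩, rfl⟩
      · intro n
        refine ⟨_, _, ⟨_, Q_adj (k * k + i) (-((n + 1 : ℕ) : ℤ))⟩, ?_⟩
        have e1 : -((n + 1 : ℕ) : ℤ) + 1 = -(n : ℤ) := by push_cast; ring
        rw [e1]
    · rintro u v ⟨hu, hv⟩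
      have key : ∀ a, ((∃ n : ℕ, u = enc (Q a (n : ℤ)) ∧ v = enc (Q a ((n + 1 : ℕ) : ℤ))) ∨
          ∃ n : ℕ, u = enc (Q a (-((n + 1 : ℕ) : ℤ))) ∧ v = enc (Q a (-(n : ℤ)))) →
          ∃ m : ℤ, u = enc (Q a m) ∧ v = enc (Q a (m+1)) := by
        rintro a (⟨n, h3, h4⟩ | ⟨n, h3, h4⟩)
        · exact ⟨(n : ℤ), h3, h4⟩
        · refine ⟨-((n + 1 : ℕ) : ℤ), h3, ?_⟩
          have e1 : -((n + 1 : ℕ) : ℤ) + 1 = -(n : ℤ) := by push_cast; ring
          rw [e1]
          exact h4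
      obtain ⟨m, h3, h4⟩ := key _ hu
      obtain ⟨n, h5, h6⟩ := key _ hv
      exact arb k i j hi hj hij m n ⟨enc_inj (h3.symm.trans h5), enc_inj (h4.symm.trans h6)⟩))
  have hF : ∀ i n, ∃ v, enc v = f i n := fun i n => ((h1 i trivial).mem n).1
  have hG : ∀ i n, ∃ v, enc v = g i n := fun i n => ((h1 i trivial).mem n).2
  choose F hF using hF
  choose G' hG using hG
  have h0 : ∀ i, F i 0 = G' i 0 := fun i => enc_inj ((hF i 0).trans
    (((h1 i trivial).zero).trans (hG i 0).symm))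
  refine no_inf ⟨fun i => glue (F i) (G' i), fun i => glue_inj ?_ ?_ ?_, ?_, ?_⟩
  · intro n m hnm
    apply (h1 i trivial).inj_f n m
    rw [← hF, ← hF, hnm]
  · intro n m hnm
    apply (h1 i trivial).inj_g n m
    rw [← hG, ← hG, hnm]
  · intro n m hnm
    apply (h1 i trivial).inj_fg n m
    rw [← hF, ← hG, hnm]
  · intro i m
    show E (glue (F i) (G' i) m) (glue (F i) (G' i) (m + 1))
    rcases glue_cases (h0 i) m with ⟨n, h3, h4⟩ | ⟨n, h3, h4⟩
    · rw [h3, h4]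
      apply mem_GE
      rw [hF, hF]
      exact (h1 i trivial).adj_f n
    · rw [h3, h4]
      apply mem_GE
      rw [hG, hG]
      exact (h1 i trivial).adj_g n
  · rintro i j hij m n ⟨h3, h4⟩
    have key : ∀ i m, Runs fullModel .D (f i) (g i) (enc (glue (F i) (G' i) m))
        (enc (glue (F i) (G' i) (m+1))) := by
      intro i m
      rcases glue_cases (h0 i) m with ⟨n, h5, h6⟩ | ⟨n, h5, h6⟩
      · left
        refine ⟨n, ?_, ?_⟩
        · rw [h5, hF]
        · rw [h6, hF]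
          rfl
      · right
        refine ⟨n, ?_, ?_⟩
        · rw [h5, hG]
          rfl
        · rw [h6, hG]
    refine h2 i j trivial trivial hij _ _ ⟨key i m, ?_⟩
    have h5 := key j n
    simp only at h3 h4
    rw [← h3, ← h4] at h5
    exact h5

end Pool.Agent.Y548.HV
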